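import Pool.Agent.R518.BaumSweetMain

/-!
# Zero positions of generalized Baum-Sweet sequences are never `k`-regular
-/

set_option autoImplicit false

namespace Pool.Agent.Results.MP_0f6055_nt.NeverRegular

/-- Every maximal block of zeros of the binary expansion of `n` has length divisible by `r`. The
block consisting of the binary digits of `n` at the places `i, i + 1, ..., j - 1` is a maximal block
of zeros if these digits are `0`, the digit at place `j` is `1`, and either `i = 0` or the digit at
place `i - 1` is `1`. (For `n = 0` there is no such block.) -/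
def BlocksDivisible (r n : ℕ) : Prop :=
  ∀ i j : ℕ, i < j → (∀ k, i ≤ k → k < j → n.testBit k = false) → n.testBit j = true →
    (i = 0 ∨ n.testBit (i - 1) = true) → r ∣ j - i

open Classical in
/-- the generalized Baum-Sweet sequence of order `r` -/
noncomputable def b (r n : ℕ) : ℕ := if BlocksDivisible r n then 1 else 0

/-- `h` is the strictly increasing sequence of the zeros of `b r` -/
def Enumerates (r : ℕ) (h : ℕ → ℕ) : Prop := StrictMono h ∧ Set.range h = {m : ℕ | b r m = 0}

/-- the `k`-kernel of a sequence of integers -/
def kernel (k : ℕ) (u : ℕ → ℤ) : Set (ℕ → ℤ) :=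
  {v | ∃ i j : ℕ, j < k ^ i ∧ v = fun n => u (k ^ i * n + j)}

/-- a sequence of integers is `k`-regular if the `ℤ`-module generated by its `k`-kernel is finitely
generated -/
def Regular (k : ℕ) (u : ℕ → ℤ) : Prop := (Submodule.span ℤ (kernel k u)).FG

/-- For every `r ≥ 2` the increasing enumeration of the zero positions of the generalized Baum-Sweet
sequence of order `r` exists and is not `k`-regular for any `k ≥ 2`. -/
theorem result (r : ℕ) (hr : 2 ≤ r) :
    (∃ h : ℕ → ℕ, Enumerates r h) ∧
      ∀ h : ℕ → ℕ, Enumerates r h → ∀ k : ℕ, 2 ≤ k → ¬ Regular k (fun n => (h n : ℤ)) := by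
  have hset : {m : ℕ | b r m = 0} = {m : ℕ | ¬ R518.BaumSweet.Good r m} := by
    ext m
    simp only [Set.mem_setOf_eq, b]
    by_cases h : BlocksDivisible r m
    · simp only [if_pos h, one_ne_zero, false_iff, not_not]
      exact h
    · simp only [if_neg h, true_iff]
      exact h
  have hrange : Set.range (R518.BaumSweet.zeroPos r) = {m : ℕ | b r m = 0} := by
    rw [hset]
    exact Nat.range_nth_of_infinite (R518.BaumSweet.infinite_bad hr)
  have hmono := R518.BaumSweet.zeroPos_strictMono hr
  refine ⟨⟨_, hmono, hrange⟩, fun h hh k hk => ?_⟩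
  have heq : h = R518.BaumSweet.zeroPos r :=
    (StrictMono.range_inj hh.1 hmono).1 (hh.2.trans hrange.symm)
  rw [heq]
  exact R518.BaumSweet.not_regular hr hk

end Pool.Agent.Results.MP_0f6055_nt.NeverRegular
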