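import Mathlib
import Pool.Agent.R487.BSMain

/-! # Zero positions of generalized Baum–Sweet sequences are never regular

The definitions (`ZeroBlocks`, `b`, `h`, `kernel`, `IsRegular`) are in `Pool/Agent/R487/BSDefs.lean`.
-/

set_option autoImplicit false

namespace Pool.Agent.Results.MP_0f6055_nt.NotRegular

open Pool.Agent.R487.BS

/-- For every `r ≥ 2`, the sequence `h^{(r)}` (the strictly increasing enumeration of the zero
positions of the generalized Baum–Sweet sequence `b^{(r)}`) is not `k`-regular for any `k ≥ 2`. -/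
theorem result : ∀ r : ℕ, 2 ≤ r →
    (StrictMono (h r) ∧ Set.range (h r) = {m : ℕ | b r m = 0}) ∧
    ¬ ∃ k : ℕ, 2 ≤ k ∧ IsRegular k (fun n => (h r n : ℤ)) := by
  intro r hr
  refine ⟨⟨h_strictMono hr, ?_⟩, ?_⟩
  · ext m
    constructor
    · rintro ⟨n, rfl⟩; exact h_mem hr n
    · intro hm; exact ⟨N0 r m, h_N0 hm⟩
  · rintro ⟨k, hk, hreg⟩
    exact main hr hk hreg

end Pool.Agent.Results.MP_0f6055_nt.NotRegular
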